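import Mathlib

/-!
The Koszul complex of the Veronese rings and their graded Betti numbers.
-/

set_option autoImplicit false

namespace Pool.Agent.T2H42.Ver

open MvPolynomial Finset

/-- The monomials of degree `d` in the variables `y_0, …, y_r`, given by their exponent vectors,
with the lexicographic order. They index the variables `x_m` of the polynomial ring `S`. -/
abbrev Mon (r d : ℕ) : Type := {u : Lex (Fin (r + 1) → ℕ) // ∑ a, ofLex u a = d}

/-- The exponent vector of a monomial. -/
noncomputable def expo {r d : ℕ} (v : Mon r d) : Fin (r + 1) →₀ ℕ :=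
  Finsupp.equivFunOnFinite.symm (ofLex v.1)

instance (r d : ℕ) : Finite (Mon r d) := by
  refine Finite.of_injective (fun (v : Mon r d) (a : Fin (r + 1)) =>
    (⟨ofLex v.1 a, Nat.lt_succ_of_le ?_⟩ : Fin (d + 1))) ?_
  · calc ofLex v.1 a ≤ ∑ a, ofLex v.1 a :=
        Finset.single_le_sum (f := fun a => ofLex v.1 a) (fun _ _ => Nat.zero_le _)
          (Finset.mem_univ a)
      _ = d := v.2
  · intro v w h
    apply Subtype.ext
    apply ofLex.injective
    funext a
    have := congrFun h a
    simpa using this

noncomputable instance (r d : ℕ) : Fintype (Mon r d) := Fintype.ofFinite _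

/-- The Koszul differential. An element `∑_F x_F ⊗ f(F)` of `Λ V ⊗ k[y_0, …, y_r]`, where `V` is the
space with basis `Mon r d` and `x_F = x_{m_1} ∧ … ∧ x_{m_i}` for `F = {m_1 < … < m_i}`, is
represented by the function `f` on finite sets of monomials. The differential is
`x_F ⊗ f ↦ ∑_l (-1)^(l-1) x_{F ∖ m_l} ⊗ m_l f`. -/
noncomputable def kosz (k : Type) [Field k] (r d : ℕ) :
    (Finset (Mon r d) → MvPolynomial (Fin (r + 1)) k) →ₗ[k]
      (Finset (Mon r d) → MvPolynomial (Fin (r + 1)) k) where
  toFun f := fun G => ∑ v ∈ Gᶜ, (-1) ^ (G.filter (fun u => u < v)).card *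
    monomial (expo v) 1 * f (insert v G)
  map_add' := by
    intro f g
    funext G
    simp [mul_add, Finset.sum_add_distrib]
  map_smul' := by
    intro c f
    funext G
    simp [Finset.smul_sum]

/-- The part of homological degree `i` and internal degree `j` of the Koszul complex, that is
`Λ^i V ⊗ (R_{r,d})_{j-i}`, where `(R_{r,d})_e = k[y_0, …, y_r]_{e d}`: all functions `f` as above
which are `0` outside the sets of cardinality `i`, and whose values are homogeneous of degree
`(j - i) d` (so there is only `f = 0` if `j < i` and `d ≥ 1`). -/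
def strand (k : Type) [Field k] (r d i j : ℕ) :
    Submodule k (Finset (Mon r d) → MvPolynomial (Fin (r + 1)) k) where
  carrier := {f | ∀ F u, coeff u (f F) ≠ 0 → F.card = i ∧ (∑ a, u a) + i * d = j * d}
  add_mem' := by
    intro f g hf hg F u hu
    rw [Pi.add_apply, coeff_add] at hu
    by_cases h : coeff u (f F) = 0
    · exact hg F u (by intro h'; exact hu (by rw [h, h', add_zero]))
    · exact hf F u h
  zero_mem' := by
    intro F u hu
    exact absurd (coeff_zero u) hu
  smul_mem' := by
    intro c f hf F u hu
    rw [Pi.smul_apply, coeff_smul] at hu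
    exact hf F u (by intro h'; exact hu (by rw [h', smul_zero]))

/-- The cycles of homological degree `i` and internal degree `j`. -/
noncomputable def cyc (k : Type) [Field k] (r d i j : ℕ) :
    Submodule k (Finset (Mon r d) → MvPolynomial (Fin (r + 1)) k) :=
  strand k r d i j ⊓ LinearMap.ker (kosz k r d)

/-- The boundaries of homological degree `i` and internal degree `j`. -/
noncomputable def bdy (k : Type) [Field k] (r d i j : ℕ) :
    Submodule k (Finset (Mon r d) → MvPolynomial (Fin (r + 1)) k) :=
  (strand k r d (i + 1) j).map (kosz k r d)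

/-- The graded Betti number `β_{i,j}(k) = dim_k Tor_i^S(R_{r,d}, k)_j` of the `d`-uple embedding of
`ℙ^r` over the field `k`: the dimension of the homology of the Koszul complex. -/
noncomputable def betti (k : Type) [Field k] (r d i j : ℕ) : ℕ :=
  Module.finrank k (cyc k r d i j ⧸ (bdy k r d i j).submoduleOf (cyc k r d i j))

end Pool.Agent.T2H42.Ver
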