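import Mathlib

/-!
Kernels of an integer matrix over `ℚ` and over `ℤ/2`.
-/

set_option autoImplicit false

namespace Pool.Agent.T2H42.Ver

open Matrix Module

variable {m n : Type} [Fintype m] [Fintype n]

/-- the linear map over `k` given by an integer matrix -/
noncomputable def ov (k : Type) [Field k] (M : Matrix m n ℤ) : (n → k) →ₗ[k] (m → k) :=
  (M.map (Int.cast : ℤ → k)).mulVecLin

lemma ov_cast (k : Type) [Field k] (M : Matrix m n ℤ) (x : n → ℤ) :
    ov k M (fun j => (x j : k)) = fun i => ((M.mulVec x i : ℤ) : k) := by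
  funext i
  simp [ov, Matrix.mulVecLin_apply, Matrix.mulVec, dotProduct]

/-- the kernel over `ℤ` -/
noncomputable def kz (M : Matrix m n ℤ) : Submodule ℤ (n → ℤ) := LinearMap.ker M.mulVecLin

lemma mem_kz (M : Matrix m n ℤ) (x : n → ℤ) : x ∈ kz M ↔ M.mulVec x = 0 := by
  simp [kz]

lemma finrank_le_kz (M : Matrix m n ℤ) :
    finrank ℚ (LinearMap.ker (ov ℚ M)) ≤ finrank ℤ (kz M) := by
  set K := LinearMap.ker (ov ℚ M)
  let b := Module.finBasis ℚ K
  -- clear denominators
  have h1 : ∀ x : n → ℚ, ∃ N : ℤ, N ≠ 0 ∧ ∃ z : n → ℤ, ∀ j, (z j : ℚ) = N * x j := by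
    intro x
    obtain ⟨N, hN⟩ := IsLocalization.exist_integer_multiples (nonZeroDivisors ℤ) Finset.univ x
    refine ⟨N, nonZeroDivisors.coe_ne_zero N, ?_⟩
    choose z hz using fun j => hN j (Finset.mem_univ j)
    refine ⟨z, fun j => ?_⟩
    have := hz j
    simpa [Algebra.smul_def] using this
  choose N hN z hz using fun i => h1 (b i : n → ℚ)
  have hzK : ∀ i, z i ∈ kz M := by
    intro i
    rw [mem_kz]
    have h2 : ov ℚ M (fun j => (z i j : ℚ)) = 0 := by
      have : (fun j => (z i j : ℚ)) = (N i : ℚ) • (b i : n → ℚ) := by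
        funext j; simp [hz i j]
      rw [this, map_smul, LinearMap.mem_ker.1 (b i).2, smul_zero]
    rw [ov_cast] at h2
    funext j
    have := congrFun h2 j
    simpa using this
  -- independence
  have hind : LinearIndependent ℤ (fun i => (⟨z i, hzK i⟩ : kz M)) := by
    have hb : LinearIndependent ℚ (fun i => (b i : n → ℚ)) :=
      b.linearIndependent.map' K.subtype (Submodule.ker_subtype K)
    rw [Fintype.linearIndependent_iff] at hb ⊢
    intro g hg i
    have h3 : ∑ i, ((g i : ℚ) * N i) • (b i : n → ℚ) = 0 := by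
      funext j
      have h4 := congrArg (fun x : kz M => (x : n → ℤ) j) hg
      simp only [AddSubmonoidClass.coe_finsetSum, SetLike.val_smul, Finset.sum_apply,
        Pi.smul_apply, smul_eq_mul, ZeroMemClass.coe_zero, Pi.zero_apply] at h4
      have h5 : ((∑ i, g i * z i j : ℤ) : ℚ) = 0 := by rw [h4]; simp
      simp only [Finset.sum_apply, Pi.smul_apply, smul_eq_mul, Pi.zero_apply]
      rw [← h5]
      push_cast
      refine Finset.sum_congr rfl fun i _ => ?_
      rw [hz i j]; ring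
    have h6 := hb _ h3 i
    rcases mul_eq_zero.1 h6 with h | h
    · exact_mod_cast h
    · exact absurd (by exact_mod_cast h) (hN i)
  have := hind.fintype_card_le_finrank
  simpa using this

/-- reductions mod 2 of a basis of the kernel are independent -/
lemma red_basis (M : Matrix m n ℤ) :
    ∃ (t : ℕ) (v : Fin t → n → ℤ), t = finrank ℤ (kz M) ∧ (∀ i, M.mulVec (v i) = 0) ∧
      (∀ x, M.mulVec x = 0 → ∃ c : Fin t → ℤ, x = ∑ i, c i • v i) ∧
      ∀ c : Fin t → ℤ, (∃ u : n → ℤ, ∑ i, c i • v i = 2 • u) → ∀ i, (2 : ℤ) ∣ c i := by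
  let b := Module.finBasis ℤ (kz M)
  refine ⟨_, fun i => (b i : n → ℤ), rfl, fun i => (mem_kz M _).1 (b i).2, ?_, ?_⟩
  · intro x hx
    refine ⟨fun i => b.repr ⟨x, (mem_kz M x).2 hx⟩ i, ?_⟩
    have := b.sum_repr ⟨x, (mem_kz M x).2 hx⟩
    have h2 := congrArg (fun x : kz M => (x : n → ℤ)) this
    simp only [AddSubmonoidClass.coe_finsetSum, SetLike.val_smul] at h2
    exact h2.symm
  · rintro c ⟨u, hu⟩ i
    have hK : u ∈ kz M := by
      rw [mem_kz]
      have h1 : M.mulVec ((2 : ℕ) • u) = 0 := by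
        rw [← hu]
        have : (∑ i, c i • (b i : n → ℤ)) ∈ kz M :=
          Submodule.sum_mem _ fun i _ => Submodule.smul_mem _ _ (b i).2
        exact (mem_kz M _).1 this
      rw [Matrix.mulVec_smul] at h1
      funext j
      have := congrFun h1 j
      simp only [Pi.smul_apply, Pi.zero_apply, smul_eq_mul, nsmul_eq_mul, Nat.cast_ofNat] at this
      simpa using this
    have h2 : ∑ i, c i • b i = (2 : ℤ) • (⟨u, hK⟩ : kz M) := by
      apply Subtype.ext
      simp only [AddSubmonoidClass.coe_finsetSum, SetLike.val_smul]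
      rw [hu]
      funext j
      simp
    have h3 : c i = 2 * b.repr ⟨u, hK⟩ i := by
      have h4 := congrArg (fun x => b.repr x i) h2
      simp only [map_smul, Finsupp.smul_apply, smul_eq_mul] at h4
      rw [← h4, b.repr_sum_self]
    exact ⟨_, h3⟩

lemma cast_sum {t : ℕ} (v : Fin t → n → ℤ) (c : Fin t → ZMod 2) (c' : Fin t → ℤ)
    (hc : ∀ i, (c' i : ZMod 2) = c i) :
    ∑ i, c i • (fun j => ((v i j : ℤ) : ZMod 2)) =
      fun j => (((∑ i, c' i • v i) j : ℤ) : ZMod 2) := by
  funext j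
  simp only [Finset.sum_apply, Pi.smul_apply, smul_eq_mul]
  push_cast
  refine Finset.sum_congr rfl fun i _ => ?_
  rw [hc]

lemma even_of_cast (x : ℤ) : ((x : ℤ) : ZMod 2) = 0 ↔ (2 : ℤ) ∣ x := by
  have := ZMod.intCast_zmod_eq_zero_iff_dvd x 2
  simpa using this

lemma indep (M : Matrix m n ℤ) {t : ℕ} (v : Fin t → n → ℤ)
    (h : ∀ c : Fin t → ℤ, (∃ u : n → ℤ, ∑ i, c i • v i = 2 • u) → ∀ i, (2 : ℤ) ∣ c i) :
    LinearIndependent (ZMod 2) (fun i => (fun j => ((v i j : ℤ) : ZMod 2) : n → ZMod 2)) := by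
  rw [Fintype.linearIndependent_iff]
  intro c hc i
  rw [cast_sum v c (fun i => ((c i).val : ℤ)) (by intro i; simp)] at hc
  have h1 : ∀ j, ∃ y : ℤ, (∑ i, ((c i).val : ℤ) • v i) j = 2 * y := by
    intro j
    have := congrFun hc j
    exact (even_of_cast _).1 this
  choose u hu using h1
  have := h (fun i => ((c i).val : ℤ)) ⟨u, by funext j; rw [hu j]; simp⟩ i
  rw [← even_of_cast] at this
  simpa using this

/-- over `ℤ/2` the kernel is at least as large as over `ℚ` -/
theorem ker_le (M : Matrix m n ℤ) :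
    finrank ℚ (LinearMap.ker (ov ℚ M)) ≤ finrank (ZMod 2) (LinearMap.ker (ov (ZMod 2) M)) := by
  refine (finrank_le_kz M).trans ?_
  obtain ⟨t, v, ht, hv, -, h⟩ := red_basis M
  have hi := indep M v h
  have hmem : ∀ i, (fun j => ((v i j : ℤ) : ZMod 2) : n → ZMod 2) ∈
      LinearMap.ker (ov (ZMod 2) M) := by
    intro i
    rw [LinearMap.mem_ker, ov_cast, hv i]
    funext j; simp
  have hi' : LinearIndependent (ZMod 2) (fun i => (⟨_, hmem i⟩ : LinearMap.ker (ov (ZMod 2) M))) :=
    LinearIndependent.of_comp (LinearMap.ker (ov (ZMod 2) M)).subtype hi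
  have := hi'.fintype_card_le_finrank
  rw [← ht]
  simpa using this

/-- a sufficient condition for a strict inequality -/
theorem ker_lt (M : Matrix m n ℤ) (w : n → ℤ) (φ : m → ℤ) (h1 : ∀ i, (2 : ℤ) ∣ M.mulVec w i)
    (h2 : ∀ j, (2 : ℤ) ∣ Matrix.vecMul φ M j) (h3 : ¬ (4 : ℤ) ∣ φ ⬝ᵥ M.mulVec w) :
    finrank ℚ (LinearMap.ker (ov ℚ M)) < finrank (ZMod 2) (LinearMap.ker (ov (ZMod 2) M)) := by
  refine (finrank_le_kz M).trans_lt ?_
  obtain ⟨t, v, ht, hv, hg, h⟩ := red_basis M
  have hi := indep M v h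
  set K := LinearMap.ker (ov (ZMod 2) M)
  set b : Fin t → n → ZMod 2 := fun i => (fun j => ((v i j : ℤ) : ZMod 2)) with hb
  have hmem : ∀ i, b i ∈ K := by
    intro i
    rw [LinearMap.mem_ker, ov_cast, hv i]
    funext j; simp
  have hw : (fun j => ((w j : ℤ) : ZMod 2) : n → ZMod 2) ∈ K := by
    rw [LinearMap.mem_ker, ov_cast]
    funext i
    exact (even_of_cast _).2 (h1 i)
  have hw' : (fun j => ((w j : ℤ) : ZMod 2) : n → ZMod 2) ∉
      Submodule.span (ZMod 2) (Set.range b) := by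
    intro hcon
    rw [Submodule.mem_span_range_iff_exists_fun] at hcon
    obtain ⟨c, hc⟩ := hcon
    rw [hb, cast_sum v c (fun i => ((c i).val : ℤ)) (by intro i; simp)] at hc
    have h4 : ∀ j, ∃ y : ℤ, w j = (∑ i, ((c i).val : ℤ) • v i) j + 2 * y := by
      intro j
      have h5 := congrFun hc j
      have h6 : ((w j - (∑ i, ((c i).val : ℤ) • v i) j : ℤ) : ZMod 2) = 0 := by
        rw [Int.cast_sub, ← h5, sub_self]
      obtain ⟨y, hy⟩ := (even_of_cast _).1 h6
      exact ⟨y, by omega⟩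
    choose u hu using h4
    have h5 : w = (∑ i, ((c i).val : ℤ) • v i) + (2 : ℤ) • u := by
      funext j
      rw [hu j]; simp
    apply h3
    have h6 : M.mulVec (∑ i, ((c i).val : ℤ) • v i) = 0 := by
      have : (∑ i, ((c i).val : ℤ) • v i) ∈ kz M :=
        Submodule.sum_mem _ fun i _ => Submodule.smul_mem _ _ ((mem_kz M _).2 (hv i))
      exact (mem_kz M _).1 this
    rw [h5, Matrix.mulVec_add, h6, zero_add, Matrix.mulVec_smul, dotProduct_smul,
      Matrix.dotProduct_mulVec, smul_eq_mul]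
    choose ψ hψ using h2
    have h7 : Matrix.vecMul φ M = (2 : ℤ) • ψ := by
      funext j
      rw [hψ j]; simp
    rw [h7, smul_dotProduct, smul_eq_mul, ← mul_assoc]
    exact ⟨_, rfl⟩
  have hle : Submodule.span (ZMod 2) (Set.range b) < K := by
    refine lt_of_le_of_ne (Submodule.span_le.2 ?_) ?_
    · rintro _ ⟨i, rfl⟩
      exact hmem i
    · intro he
      rw [he] at hw'
      exact hw' hw
  have h8 := Submodule.finrank_lt_finrank_of_lt hle
  rw [finrank_span_eq_card hi] at h8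
  rw [← ht]
  simpa using h8

end Pool.Agent.T2H42.Ver
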