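import Mathlib
import Pool.Agent.T2H42.Ver.Defs
import Pool.Agent.T2H42.Ver.Lattice

/-!
The Koszul complex in the basis of monomials.
-/

set_option autoImplicit false

namespace Pool.Agent.T2H42.Ver

open MvPolynomial Finset Module

variable {r d : ℕ}

/-- the basis of the strand -/
def Cell (r d i j : ℕ) : Type :=
  {x : Finset (Mon r d) × (Fin (r + 1) →₀ ℕ) // x.1.card = i ∧ (∑ a, x.2 a) + i * d = j * d}

instance (r d i j : ℕ) : Finite (Cell r d i j) := by
  refine Finite.of_injective (fun (x : Cell r d i j) =>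
    (x.1.1, fun (a : Fin (r + 1)) => (⟨x.1.2 a, Nat.lt_succ_of_le ?_⟩ : Fin (j * d + 1)))) ?_
  · calc x.1.2 a ≤ ∑ a, x.1.2 a :=
        Finset.single_le_sum (f := fun a => x.1.2 a) (fun _ _ => Nat.zero_le _)
          (Finset.mem_univ a)
      _ ≤ j * d := by have := x.2.2; omega
  · intro x y h
    apply Subtype.ext
    simp only [Prod.mk.injEq] at h
    refine Prod.ext h.1 ?_
    ext a
    have := congrFun h.2 a
    simpa using this

noncomputable instance (r d i j : ℕ) : Fintype (Cell r d i j) := Fintype.ofFinite _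

open Classical in
noncomputable instance (r d i j : ℕ) : DecidableEq (Cell r d i j) := Classical.decEq _

/-- the coefficients -/
noncomputable def tc (k : Type) [Field k] (r d i j : ℕ) :
    (Finset (Mon r d) → MvPolynomial (Fin (r + 1)) k) →ₗ[k] (Cell r d i j → k) where
  toFun f := fun x => coeff x.1.2 (f x.1.1)
  map_add' := by
    intro f g; funext x; simp
  map_smul' := by
    intro c f; funext x; simp

lemma tc_inj {k : Type} [Field k] {i j : ℕ} {f : Finset (Mon r d) → MvPolynomial (Fin (r + 1)) k}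
    (hf : f ∈ strand k r d i j) (h : tc k r d i j f = 0) : f = 0 := by
  funext F
  ext u
  by_contra hne
  have h1 : coeff u (f F) ≠ 0 := by simpa using hne
  have h2 := hf F u h1
  have h3 := congrFun h ⟨(F, u), h2⟩
  exact h1 h3

open Classical in
lemma tc_surj (k : Type) [Field k] (i j : ℕ) (g : Cell r d i j → k) :
    ∃ f ∈ strand k r d i j, tc k r d i j f = g := by
  have hco : ∀ (F : Finset (Mon r d)) (u : Fin (r + 1) →₀ ℕ),
      coeff u (∑ x : Cell r d i j, if x.1.1 = F then monomial x.1.2 (g x) else 0) =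
      ∑ x : Cell r d i j, if x.1.1 = F ∧ x.1.2 = u then g x else 0 := by
    intro F u
    rw [coeff_sum]
    refine Finset.sum_congr rfl fun x _ => ?_
    by_cases h : x.1.1 = F
    · simp [h, coeff_monomial]
    · simp [h]
  refine ⟨fun F => ∑ x : Cell r d i j, if x.1.1 = F then monomial x.1.2 (g x) else 0, ?_, ?_⟩
  · intro F u hu
    rw [hco] at hu
    obtain ⟨x, -, hx⟩ := Finset.exists_ne_zero_of_sum_ne_zero hu
    have h1 : x.1.1 = F ∧ x.1.2 = u := by
      by_contra h
      exact hx (if_neg h)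
    rw [← h1.1, ← h1.2]
    exact x.2
  · funext y
    change coeff y.1.2 _ = _
    rw [hco, Finset.sum_eq_single y]
    · simp
    · intro x _ hx
      rw [if_neg]
      rintro ⟨h1, h2⟩
      exact hx (Subtype.ext (Prod.ext h1 h2))
    · intro h; exact absurd (Finset.mem_univ y) h

/-- the sign -/
noncomputable def sg (G : Finset (Mon r d)) (v : Mon r d) : ℤ := (-1) ^ (G.filter (fun u => u < v)).card

/-- the matrix of the differential -/
noncomputable def Mat (r d i j : ℕ) : Matrix (Cell r d i j) (Cell r d (i + 1) j) ℤ := fun x y =>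
  ∑ v ∈ x.1.1ᶜ, if insert v x.1.1 = y.1.1 ∧ y.1.2 + expo v = x.1.2 then sg x.1.1 v else 0

lemma kosz_apply {k : Type} [Field k] (f : Finset (Mon r d) → MvPolynomial (Fin (r + 1)) k)
    (G : Finset (Mon r d)) : kosz k r d f G = ∑ v ∈ Gᶜ, (-1) ^ (G.filter (fun u => u < v)).card *
    monomial (expo v) 1 * f (insert v G) := rfl

lemma coeff_kosz {k : Type} [Field k] (f : Finset (Mon r d) → MvPolynomial (Fin (r + 1)) k)
    (G : Finset (Mon r d)) (u : Fin (r + 1) →₀ ℕ) :
    coeff u (kosz k r d f G) = ∑ v ∈ Gᶜ,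
      if expo v ≤ u then ((sg G v : ℤ) : k) * coeff (u - expo v) (f (insert v G)) else 0 := by
  rw [kosz_apply, coeff_sum]
  refine Finset.sum_congr rfl fun v _ => ?_
  have h1 : ((-1 : MvPolynomial (Fin (r + 1)) k) ^ (G.filter (fun u => u < v)).card *
      monomial (expo v) 1 * f (insert v G)) =
      monomial (expo v) ((-1) ^ (G.filter (fun u => u < v)).card) * f (insert v G) := by
    congr 1
    have h2 : (-1 : MvPolynomial (Fin (r + 1)) k) ^ (G.filter (fun u => u < v)).card =
        C ((-1) ^ (G.filter (fun u => u < v)).card) := by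
      rw [map_pow, map_neg, map_one]
    rw [h2, C_mul_monomial, mul_one]
  rw [h1, coeff_monomial_mul']
  simp [sg]

lemma sum_expo (v : Mon r d) : ∑ a, expo v a = d := v.2

lemma kosz_strand {k : Type} [Field k] {i j : ℕ}
    {f : Finset (Mon r d) → MvPolynomial (Fin (r + 1)) k} (hf : f ∈ strand k r d (i + 1) j) :
    kosz k r d f ∈ strand k r d i j := by
  intro G u hu
  rw [coeff_kosz] at hu
  obtain ⟨v, hv, hv'⟩ := Finset.exists_ne_zero_of_sum_ne_zero hu
  have h1 : expo v ≤ u := by
    by_contra h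
    exact hv' (if_neg h)
  rw [if_pos h1] at hv'
  have h2 := hf _ _ (right_ne_zero_of_mul hv')
  rw [Finset.card_insert_of_notMem (by simpa using hv)] at h2
  refine ⟨by omega, ?_⟩
  have h3 : (∑ a, (u - expo v) a) + ∑ a, expo v a = ∑ a, u a := by
    rw [← Finset.sum_add_distrib]
    refine Finset.sum_congr rfl fun a _ => ?_
    have := h1 a
    rw [Finsupp.tsub_apply]
    omega
  rw [sum_expo] at h3
  have h4 := h2.2
  rw [add_mul] at h4
  omega

lemma tc_kosz {k : Type} [Field k] {i j : ℕ}
    (f : Finset (Mon r d) → MvPolynomial (Fin (r + 1)) k) :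
    tc k r d i j (kosz k r d f) = ov k (Mat r d i j) (tc k r d (i + 1) j f) := by
  funext x
  change coeff x.1.2 (kosz k r d f x.1.1) = _
  rw [coeff_kosz]
  have h1 : ov k (Mat r d i j) (tc k r d (i + 1) j f) x = ∑ y : Cell r d (i + 1) j,
      ((Mat r d i j x y : ℤ) : k) * coeff y.1.2 (f y.1.1) := by
    simp [ov, Matrix.mulVec, dotProduct, tc]
  rw [h1]
  simp only [Mat, Int.cast_sum, Finset.sum_mul]
  rw [Finset.sum_comm]
  refine Finset.sum_congr rfl fun v hv => ?_
  have hv' : v ∉ x.1.1 := by simpa using hv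
  by_cases hle : expo v ≤ x.1.2
  · rw [if_pos hle]
    have hc : (insert v x.1.1).card = i + 1 ∧
        (∑ a, (x.1.2 - expo v) a) + (i + 1) * d = j * d := by
      refine ⟨by rw [Finset.card_insert_of_notMem hv', x.2.1], ?_⟩
      have h3 : (∑ a, (x.1.2 - expo v) a) + ∑ a, expo v a = ∑ a, x.1.2 a := by
        rw [← Finset.sum_add_distrib]
        refine Finset.sum_congr rfl fun a _ => ?_
        have := hle a
        rw [Finsupp.tsub_apply]
        omega
      rw [sum_expo] at h3
      have h4 := x.2.2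
      rw [add_mul]
      omega
    obtain ⟨y0, hy0⟩ : ∃ y : Cell r d (i + 1) j, y.1 = (insert v x.1.1, x.1.2 - expo v) :=
      ⟨⟨_, hc⟩, rfl⟩
    rw [Finset.sum_eq_single y0]
    · rw [hy0, if_pos ⟨rfl, tsub_add_cancel_of_le hle⟩]
    · intro y _ hy
      rw [if_neg]
      · simp
      · rintro ⟨h1, h2⟩
        apply hy
        apply Subtype.ext
        rw [hy0]
        refine Prod.ext h1.symm ?_
        rw [← h2]
        simp
    · intro h
      exact absurd (Finset.mem_univ _) h
  · rw [if_neg hle]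
    symm
    apply Finset.sum_eq_zero
    intro y _
    rw [if_neg]
    · simp
    · rintro ⟨-, h2⟩
      apply hle
      rw [← h2]
      exact le_add_self

lemma sg_insert (G : Finset (Mon r d)) {b c : Mon r d} (hc : c ∉ G) :
    sg (insert c G) b = (if c < b then -1 else 1) * sg G b := by
  rw [sg, sg, Finset.filter_insert]
  split_ifs with h
  · rw [Finset.card_insert_of_notMem (by simp [hc]), pow_succ]
    ring
  · simp

lemma sg_anti (G : Finset (Mon r d)) {b c : Mon r d} (hb : b ∉ G) (hc : c ∉ G) (hbc : b ≠ c) :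
    sg G b * sg (insert b G) c = -(sg G c * sg (insert c G) b) := by
  rw [sg_insert G hb, sg_insert G hc]
  rcases lt_or_gt_of_ne hbc with h | h
  · rw [if_pos h, if_neg (not_lt.mpr h.le)]
    ring
  · rw [if_pos h, if_neg (not_lt.mpr h.le)]
    ring

lemma double_sum_zero {k : Type} [Field k] (G : Finset (Mon r d)) (T : Mon r d → Mon r d → k)
    (hT : ∀ b c, b ∉ G → c ∉ G → b ≠ c → T b c + T c b = 0) :
    ∑ b ∈ Gᶜ, ∑ c ∈ (insert b G)ᶜ, T b c = 0 := by
  rw [Finset.sum_sigma']
  refine Finset.sum_involution (fun x _ => ⟨x.2, x.1⟩) ?_ ?_ ?_ ?_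
  · rintro ⟨b, c⟩ h
    simp only [Finset.mem_sigma, Finset.mem_compl, Finset.mem_insert, not_or] at h
    exact hT b c h.1 h.2.2 (Ne.symm h.2.1)
  · rintro ⟨b, c⟩ h _ h'
    simp only [Finset.mem_sigma, Finset.mem_compl, Finset.mem_insert, not_or] at h
    simp only [Sigma.mk.injEq, heq_eq_eq] at h'
    exact h.2.1 h'.1
  · rintro ⟨b, c⟩ h
    simp only [Finset.mem_sigma, Finset.mem_compl, Finset.mem_insert, not_or] at h ⊢
    exact ⟨h.2.2, Ne.symm h.2.1, h.1⟩
  · rintro ⟨b, c⟩ h
    rfl

/-- the Koszul differential is a differential -/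
theorem kosz_kosz {k : Type} [Field k] (f : Finset (Mon r d) → MvPolynomial (Fin (r + 1)) k) :
    kosz k r d (kosz k r d f) = 0 := by
  funext G
  ext u
  rw [coeff_kosz]
  simp only [coeff_kosz, Pi.zero_apply, coeff_zero]
  have h1 : ∀ v ∈ Gᶜ, (if expo v ≤ u then ((sg G v : ℤ) : k) *
      ∑ w ∈ (insert v G)ᶜ, (if expo w ≤ u - expo v then ((sg (insert v G) w : ℤ) : k) *
        coeff (u - expo v - expo w) (f (insert w (insert v G))) else 0) else 0) =
      ∑ w ∈ (insert v G)ᶜ, if expo v + expo w ≤ u then ((sg G v * sg (insert v G) w : ℤ) : k) *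
        coeff (u - (expo v + expo w)) (f (insert w (insert v G))) else 0 := by
    intro v _
    by_cases hv : expo v ≤ u
    · rw [if_pos hv, Finset.mul_sum]
      refine Finset.sum_congr rfl fun w _ => ?_
      have h2 : expo w ≤ u - expo v ↔ expo v + expo w ≤ u := by
        rw [le_tsub_iff_left hv]
      by_cases hw : expo w ≤ u - expo v
      · rw [if_pos hw, if_pos (h2.1 hw), tsub_add_eq_tsub_tsub]
        push_cast
        ring
      · rw [if_neg hw, if_neg (fun h => hw (h2.2 h)), mul_zero]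
    · rw [if_neg hv]
      symm
      apply Finset.sum_eq_zero
      intro w _
      rw [if_neg]
      intro h
      exact hv (le_trans le_self_add h)
  rw [Finset.sum_congr rfl h1]
  apply double_sum_zero
  intro b c hb hc hbc
  rw [add_comm (expo c) (expo b), Finset.insert_comm b c G]
  by_cases h : expo b + expo c ≤ u
  · rw [if_pos h, if_pos h, sg_anti G hb hc hbc]
    push_cast
    ring
  · rw [if_neg h, if_neg h, add_zero]

lemma map_cyc (k : Type) [Field k] (i j : ℕ) :
    (cyc k r d (i + 1) j).map (tc k r d (i + 1) j) = LinearMap.ker (ov k (Mat r d i j)) := by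
  ext g
  constructor
  · rintro ⟨f, ⟨hf, hf'⟩, rfl⟩
    rw [LinearMap.mem_ker, ← tc_kosz, LinearMap.mem_ker.1 hf', map_zero]
  · intro hg
    obtain ⟨f, hf, rfl⟩ := tc_surj k (i + 1) j g
    refine ⟨f, ⟨hf, ?_⟩, rfl⟩
    rw [LinearMap.mem_ker, ← tc_kosz] at hg
    exact tc_inj (kosz_strand hf) hg

lemma map_bdy (k : Type) [Field k] (i j : ℕ) :
    (bdy k r d i j).map (tc k r d i j) = LinearMap.range (ov k (Mat r d i j)) := by
  ext g
  constructor
  · rintro ⟨_, ⟨f, hf, rfl⟩, rfl⟩
    exact ⟨_, (tc_kosz f).symm⟩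
  · rintro ⟨g, rfl⟩
    obtain ⟨f, hf, rfl⟩ := tc_surj k (i + 1) j g
    exact ⟨_, ⟨f, hf, rfl⟩, tc_kosz f⟩

lemma bdy_le (k : Type) [Field k] (i j : ℕ) : bdy k r d i j ≤ cyc k r d i j := by
  rintro _ ⟨f, hf, rfl⟩
  exact ⟨kosz_strand hf, kosz_kosz f⟩

lemma finrank_map {k : Type} [Field k] {i j : ℕ}
    (Z : Submodule k (Finset (Mon r d) → MvPolynomial (Fin (r + 1)) k))
    (hZ : Z ≤ strand k r d i j) :
    finrank k Z = finrank k (Z.map (tc k r d i j)) ∧ Module.Finite k Z := by
  have hinj : Function.Injective ((tc k r d i j).domRestrict Z) := by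
    rw [← LinearMap.ker_eq_bot, LinearMap.ker_eq_bot']
    intro f hf
    apply Subtype.ext
    exact tc_inj (hZ f.2) hf
  constructor
  · rw [← LinearMap.finrank_range_of_inj hinj, LinearMap.range_domRestrict]
  · exact Module.Finite.of_injective _ hinj

/-- the Betti numbers in terms of the matrices -/
theorem betti_add (k : Type) [Field k] (r d i j : ℕ) :
    betti k r d (i + 1) j + Fintype.card (Cell r d (i + 1 + 1) j) =
      finrank k (LinearMap.ker (ov k (Mat r d i j))) +
        finrank k (LinearMap.ker (ov k (Mat r d (i + 1) j))) := by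
  have h1 := finrank_map (cyc k r d (i + 1) j) (i := i + 1) (j := j) inf_le_left
  have h2 := finrank_map (bdy k r d (i + 1) j) (i := i + 1) (j := j)
    ((bdy_le k _ _).trans inf_le_left)
  rw [map_cyc] at h1
  rw [map_bdy] at h2
  have := h1.2
  have h3 := Submodule.finrank_quotient_add_finrank
    ((bdy k r d (i + 1) j).submoduleOf (cyc k r d (i + 1) j))
  have h4 : finrank k ((bdy k r d (i + 1) j).submoduleOf (cyc k r d (i + 1) j)) =
      finrank k (bdy k r d (i + 1) j) :=
    (Submodule.submoduleOfEquivOfLe (bdy_le k (i + 1) j)).finrank_eq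
  have h5 := LinearMap.finrank_range_add_finrank_ker (ov k (Mat r d (i + 1) j))
  rw [Module.finrank_fintype_fun_eq_card] at h5
  rw [betti]
  rw [h4, h2.1, h1.1] at h3
  omega

/-- a sufficient condition for a strict inequality of Betti numbers -/
theorem betti_lt (r d i j : ℕ) (w : Cell r d (i + 1) j → ℤ) (φ : Cell r d i j → ℤ)
    (h1 : ∀ x, (2 : ℤ) ∣ (Mat r d i j).mulVec w x)
    (h2 : ∀ y, (2 : ℤ) ∣ Matrix.vecMul φ (Mat r d i j) y)
    (h3 : ¬ (4 : ℤ) ∣ φ ⬝ᵥ (Mat r d i j).mulVec w) :
    betti ℚ r d (i + 1) j < betti (ZMod 2) r d (i + 1) j := by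
  have a1 := betti_add ℚ r d i j
  have a2 := betti_add (ZMod 2) r d i j
  have a3 := ker_lt (Mat r d i j) w φ h1 h2 h3
  have a4 := ker_le (Mat r d (i + 1) j)
  omega

end Pool.Agent.T2H42.Ver
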