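import Mathlib
import Pool.Agent.T2H42.Ver.Data

/-!
The kernel computations.
-/

set_option autoImplicit false

namespace Pool.Agent.T2H42.Ver

/-! ### Sorting, and a parity check -/

def mrg : ℕ → List ℕ → List ℕ → List ℕ
  | 0, xs, ys => xs ++ ys
  | _ + 1, [], ys => ys
  | _ + 1, x :: xs, [] => x :: xs
  | n + 1, x :: xs, y :: ys =>
    match Nat.ble x y with
    | true => x :: mrg n xs (y :: ys)
    | false => y :: mrg n (x :: xs) ys

lemma mrg_perm (n : ℕ) : ∀ xs ys : List ℕ, (mrg n xs ys).Perm (xs ++ ys) := by
  induction n with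
  | zero => intro xs ys; exact List.Perm.refl _
  | succ n ih =>
    intro xs ys
    cases xs with
    | nil => cases ys <;> exact List.Perm.refl _
    | cons x xs =>
      cases ys with
      | nil => simp [mrg]
      | cons y ys =>
        rw [mrg]
        cases h : Nat.ble x y with
        | true => exact List.Perm.cons x (ih xs (y :: ys))
        | false =>
          refine (List.Perm.cons y (ih (x :: xs) ys)).trans ?_
          exact List.perm_middle.symm

def mrgPairs (N : ℕ) : List (List ℕ) → List (List ℕ)
  | a :: b :: t => mrg N a b :: mrgPairs N t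
  | [a] => [a]
  | [] => []

lemma mrgPairs_perm (N : ℕ) : ∀ l : List (List ℕ), (mrgPairs N l).flatten.Perm l.flatten
  | a :: b :: t => by
    rw [mrgPairs, List.flatten_cons, List.flatten_cons, List.flatten_cons, ← List.append_assoc]
    exact List.Perm.append (mrg_perm N a b) (mrgPairs_perm N t)
  | [a] => List.Perm.refl _
  | [] => List.Perm.refl _

def mrgAll (N : ℕ) : ℕ → List (List ℕ) → List ℕ
  | 0, l => l.flatten
  | n + 1, l =>
    match l with
    | [] => []
    | [a] => a
    | a :: b :: t => mrgAll N n (mrgPairs N (a :: b :: t))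

lemma mrgAll_perm (N n : ℕ) : ∀ l : List (List ℕ), (mrgAll N n l).Perm l.flatten := by
  induction n with
  | zero => intro l; exact List.Perm.refl _
  | succ n ih =>
    intro l
    match l with
    | [] => exact List.Perm.refl _
    | [a] => simp [mrgAll]
    | a :: b :: t =>
      rw [mrgAll]
      exact (ih _).trans (mrgPairs_perm N _)

def pairsEq : ℕ → List ℕ → Bool
  | _, [] => true
  | 0, _ :: _ => false
  | _ + 1, [_] => false
  | n + 1, a :: b :: t =>
    match Nat.beq a b with
    | true => pairsEq n t
    | false => false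

lemma pairsEq_sum (g : ℕ → ℤ) (n : ℕ) :
    ∀ l : List ℕ, pairsEq n l = true → (2 : ℤ) ∣ (l.map g).sum := by
  induction n with
  | zero =>
    intro l h
    cases l with
    | nil => simp
    | cons a t => simp [pairsEq] at h
  | succ n ih =>
    intro l h
    match l with
    | [] => simp
    | [a] => simp [pairsEq] at h
    | a :: b :: t =>
      rw [pairsEq] at h
      cases hab : Nat.beq a b with
      | false => rw [hab] at h; simp at h
      | true =>
        rw [hab] at h
        obtain ⟨c, hc⟩ := ih t h
        have hab' : a = b := Nat.eq_of_beq_eq_true hab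
        subst hab'
        simp only [List.map_cons, List.sum_cons]
        exact ⟨g a + c, by rw [hc]; ring⟩

/-- check that all multiplicities are even -/
def allEven (N : ℕ) (l : List ℕ) : Bool := pairsEq N (mrgAll N 40 (l.map fun x => [x]))

lemma allEven_sum {N : ℕ} {l : List ℕ} (h : allEven N l = true) (g : ℕ → ℤ) :
    (2 : ℤ) ∣ (l.map g).sum := by
  have h1 := pairsEq_sum g _ _ h
  have h2 : (mrgAll N 40 (l.map fun x => [x])).Perm l := by
    refine (mrgAll_perm N 40 _).trans ?_
    have key : ∀ l : List ℕ, (l.map fun x => [x]).flatten = l := by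
      intro l
      induction l with
      | nil => rfl
      | cons a t ih => simp [ih]
    rw [key]
  rwa [(h2.map g).sum_eq] at h1

/-! ### The facets and cofacets -/

/-- the exponents of the 35 monomials of degree four, coded -/
def tab : ℕ → ℕ
  | 0 => 22454110124315318692178638667776
  | 1 => 636475281016495418012095250432
  | 2 => 79388043563862677077117650568
  | 3 => 9923240991946554386149900956
  | _ + 4 => 0

/-- the exponent of the variable `i` in the monomial number `a` -/
def wt (a i : ℕ) : ℕ := (tab i / 8 ^ a) % 8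

/-- the multidegree -/
def bet : ℕ → ℕ
  | 0 => 22
  | 1 => 20
  | 2 => 14
  | 3 => 4
  | _ + 4 => 0

/-- exponent of the variable `i` in the product of the elements `a < n` of `S` -/
def sw (S i : ℕ) : ℕ → ℕ
  | 0 => 0
  | n + 1 =>
    match S.testBit n with
    | true => sw S i n + wt n i
    | false => sw S i n

/-- number of the elements `a < n` of `S` -/
def pc (S : ℕ) : ℕ → ℕ
  | 0 => 0
  | n + 1 =>
    match S.testBit n with
    | true => pc S n + 1
    | false => pc S n

/-- `S` is a set of `c` of the 35 monomials whose product divides the monomial `bet` -/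
def valid (c S : ℕ) : Bool :=
  Nat.blt S (2 ^ 35) && Nat.beq (pc S 35) c && Nat.ble (sw S 0 35) 22 && Nat.ble (sw S 1 35) 20 &&
    Nat.ble (sw S 2 35) 14 && Nat.ble (sw S 3 35) 4

/-- the list of `S ∖ {a}`, `a ∈ S`, for `a < n` -/
def facetsOf (S : ℕ) : ℕ → List ℕ
  | 0 => []
  | n + 1 =>
    match S.testBit n with
    | true => (S ^^^ 2 ^ n) :: facetsOf S n
    | false => facetsOf S n

def facets : List ℕ → List ℕ
  | [] => []
  | S :: t => facetsOf S 35 ++ facets t

/-- does the monomial `a` fit -/
def fits (s0 s1 s2 s3 a : ℕ) : Bool :=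
  Nat.ble (s0 + wt a 0) 22 && Nat.ble (s1 + wt a 1) 20 && Nat.ble (s2 + wt a 2) 14 &&
    Nat.ble (s3 + wt a 3) 4

/-- the list of `S ∪ {a}`, `a ∉ S`, for `a < n` that fit -/
def cofacetsOf (S s0 s1 s2 s3 : ℕ) : ℕ → List ℕ
  | 0 => []
  | n + 1 =>
    match S.testBit n || !(fits s0 s1 s2 s3 n) with
    | true => cofacetsOf S s0 s1 s2 s3 n
    | false => (S ^^^ 2 ^ n) :: cofacetsOf S s0 s1 s2 s3 n

def cofacets : List ℕ → List ℕ
  | [] => []
  | S :: t => cofacetsOf S (sw S 0 35) (sw S 1 35) (sw S 2 35) (sw S 3 35) 35 ++ cofacets t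

/-- the sign -/
def sgn (S a : ℕ) : ℤ :=
  match Nat.beq (pc S a % 2) 0 with
  | true => 1
  | false => -1

/-- the entry of the matrix: `S' = S ∪ {a}` -/
def mm (S S' : ℕ) : ℤ :=
  match Nat.beq (2 ^ (S ^^^ S').log2) (S ^^^ S') with
  | true =>
    match S.testBit (S ^^^ S').log2 with
    | true => 0
    | false => sgn S (S ^^^ S').log2
  | false => 0

def rowSum (S : ℕ) : List ℕ → ℤ
  | [] => 0
  | S' :: t => mm S S' + rowSum S t

def totSum (l' : List ℕ) : List ℕ → ℤ
  | [] => 0
  | S :: t => rowSum S l' + totSum l' t

theorem validW : W.all (valid 14) = true := by decide +kernel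

theorem validPh : Ph.all (valid 13) = true := by decide +kernel

theorem check1 : allEven 20000 (facets W) = true := by decide +kernel

theorem check2 : allEven 1000 (cofacets Ph) = true := by decide +kernel

theorem check3 : totSum W Ph = 6 := by decide +kernel

end Pool.Agent.T2H42.Ver
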