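import Mathlib
import Pool.Agent.T2H42.Ver.Cell
import Pool.Agent.T2H42.Ver.Check

/-!
From bit masks to cells of the Koszul complex.
-/

set_option autoImplicit false

namespace Pool.Agent.T2H42.Ver

open Finset

/-! ### Bit masks -/

lemma tb_xor (S a b : ℕ) :
    (S ^^^ 2 ^ a).testBit b = if b = a then !S.testBit b else S.testBit b := by
  rw [Nat.testBit_xor, Nat.testBit_two_pow]
  by_cases h : b = a
  · subst h
    simp
  · rw [if_neg h]
    have : ¬ a = b := fun h' => h h'.symm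
    simp [this]

lemma wt_ge (a : ℕ) {i : ℕ} (hi : 4 ≤ i) : wt a i = 0 := by
  obtain ⟨s, rfl⟩ := Nat.exists_eq_add_of_le hi
  rw [add_comm]
  simp [wt, tab]

lemma bet_ge {i : ℕ} (hi : 4 ≤ i) : bet i = 0 := by
  obtain ⟨s, rfl⟩ := Nat.exists_eq_add_of_le hi
  rw [add_comm]
  simp [bet]

lemma wt_sum : ∀ a < 35, wt a 0 + wt a 1 + wt a 2 + wt a 3 = 4 := by decide +kernel

lemma wt_lex : ∀ a < 35, ∀ b < 35, a < b →
    ∃ k < 4, (∀ l < k, wt a l = wt b l) ∧ wt a k < wt b k := by decide +kernel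

lemma wt_surj : ∀ x0 x1 x2 x3 : Fin 5, x0.val + x1.val + x2.val + x3.val = 4 →
    ∃ a : Fin 35, wt a 0 = x0.val ∧ wt a 1 = x1.val ∧ wt a 2 = x2.val ∧ wt a 3 = x3.val := by
  decide +kernel

lemma sw_eq (S i n : ℕ) : sw S i n = ∑ a ∈ range n, if S.testBit a = true then wt a i else 0 := by
  induction n with
  | zero => rfl
  | succ n ih =>
    rw [Finset.sum_range_succ, sw, ih]
    cases h : S.testBit n <;> simp

lemma pc_eq (S n : ℕ) : pc S n = ∑ a ∈ range n, if S.testBit a = true then 1 else 0 := by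
  induction n with
  | zero => rfl
  | succ n ih =>
    rw [Finset.sum_range_succ, pc, ih]
    cases h : S.testBit n <;> simp

lemma sw_ge (S : ℕ) {i : ℕ} (hi : 4 ≤ i) (n : ℕ) : sw S i n = 0 := by
  rw [sw_eq]
  apply Finset.sum_eq_zero
  intro a _
  rw [wt_ge a hi]
  simp

lemma sum_xor {n S a : ℕ} (ha : a < n) (hS : S.testBit a = false) (f : ℕ → ℕ) :
    (∑ b ∈ range n, if (S ^^^ 2 ^ a).testBit b = true then f b else 0) =
      (∑ b ∈ range n, if S.testBit b = true then f b else 0) + f a := by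
  have h1 : ∀ b ∈ range n, (if (S ^^^ 2 ^ a).testBit b = true then f b else 0) =
      (if S.testBit b = true then f b else 0) + if b = a then f b else 0 := by
    intro b _
    rw [tb_xor]
    by_cases h : b = a
    · subst h; simp [hS]
    · simp [h]
  rw [Finset.sum_congr rfl h1, Finset.sum_add_distrib]
  congr 1
  rw [Finset.sum_ite_eq']
  simp [ha]

lemma sw_xor {S a : ℕ} (ha : a < 35) (hS : S.testBit a = false) (i : ℕ) :
    sw (S ^^^ 2 ^ a) i 35 = sw S i 35 + wt a i := by
  rw [sw_eq, sw_eq, sum_xor ha hS]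

lemma sw_xor' {S a : ℕ} (ha : a < 35) (hS : S.testBit a = true) (i : ℕ) :
    sw S i 35 = sw (S ^^^ 2 ^ a) i 35 + wt a i := by
  have h1 : (S ^^^ 2 ^ a).testBit a = false := by rw [tb_xor]; simp [hS]
  have h2 := sw_xor ha h1 i
  rwa [Nat.xor_assoc, Nat.xor_self, Nat.xor_zero] at h2

lemma sw_tot (S : ℕ) : sw S 0 35 + sw S 1 35 + sw S 2 35 + sw S 3 35 = 4 * pc S 35 := by
  rw [sw_eq, sw_eq, sw_eq, sw_eq, pc_eq, Finset.mul_sum, ← Finset.sum_add_distrib,
    ← Finset.sum_add_distrib, ← Finset.sum_add_distrib]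
  refine Finset.sum_congr rfl fun a ha => ?_
  have := wt_sum a (by simpa using ha)
  by_cases h : S.testBit a = true
  · simp only [h, if_true]; omega
  · simp [h]

lemma valid_iff {c S : ℕ} (h : valid c S = true) :
    S < 2 ^ 35 ∧ pc S 35 = c ∧ ∀ i, sw S i 35 ≤ bet i := by
  simp only [valid, Bool.and_eq_true, Nat.ble_eq] at h
  obtain ⟨⟨⟨⟨⟨h1, h2⟩, h3⟩, h4⟩, h5⟩, h6⟩ := h
  refine ⟨by simpa [Nat.blt] using h1, Nat.eq_of_beq_eq_true h2, ?_⟩
  intro i
  match i with
  | 0 => exact h3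
  | 1 => exact h4
  | 2 => exact h5
  | 3 => exact h6
  | i + 4 => rw [sw_ge S (by omega)]; exact Nat.zero_le _

/-! ### The embedding of the monomials -/

section

variable {r : ℕ}

lemma sum4 (hr : 3 ≤ r) (f : ℕ → ℕ) (hf : ∀ i, 4 ≤ i → f i = 0) :
    ∑ i : Fin (r + 1), f i = f 0 + f 1 + f 2 + f 3 := by
  rw [Fin.sum_univ_eq_sum_range]
  have h1 : ∑ i ∈ range 4, f i = ∑ i ∈ range (r + 1), f i := by
    apply Finset.sum_subset
    · intro x hx
      simp only [Finset.mem_range] at hx ⊢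
      omega
    · intro x _ hx
      apply hf
      simpa using hx
  rw [← h1]
  simp [Finset.sum_range_succ]

/-- the monomial number `a` -/
def em (hr : 3 ≤ r) (a : Fin 35) : Mon r 4 := ⟨toLex (fun i => wt a i), by
  have := sum4 hr (fun i => wt a i) (fun i hi => wt_ge _ hi)
  have h2 := wt_sum a a.2
  simp only [ofLex_toLex]
  omega⟩

lemma em_strictMono (hr : 3 ≤ r) : StrictMono (em hr) := by
  intro a b hab
  obtain ⟨k, hk, h1, h2⟩ := wt_lex a a.2 b b.2 hab
  change Pi.Lex (· < ·) (· < ·) _ _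
  refine ⟨⟨k, by omega⟩, ?_, h2⟩
  intro j hj
  exact h1 j hj

/-- the embedding -/
noncomputable def emb (hr : 3 ≤ r) : Fin 35 ↪o Mon r 4 :=
  OrderEmbedding.ofStrictMono (em hr) (em_strictMono hr)

lemma emb_apply (hr : 3 ≤ r) (a : Fin 35) : emb hr a = em hr a := rfl

lemma expo_em (hr : 3 ≤ r) (a : Fin 35) (i : Fin (r + 1)) : expo (em hr a) i = wt a i := rfl

lemma exists_em (hr : 3 ≤ r) (v : Mon r 4) (hv : ∀ i : Fin (r + 1), 4 ≤ i.val → expo v i = 0) :
    ∃ a, emb hr a = v := by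
  let f : ℕ → ℕ := fun i => if h : i < r + 1 then expo v ⟨i, h⟩ else 0
  have hf : ∀ i : Fin (r + 1), f i = expo v i := fun i => dif_pos i.2
  have hs : ∑ i : Fin (r + 1), f i = 4 := by
    rw [← sum_expo v]
    exact Finset.sum_congr rfl fun i _ => hf i
  have hz : ∀ i, 4 ≤ i → f i = 0 := by
    intro i hi
    by_cases h : i < r + 1
    · rw [show f i = expo v ⟨i, h⟩ from dif_pos h]
      exact hv _ hi
    · exact dif_neg h
  rw [sum4 hr f hz] at hs
  obtain ⟨a, h0, h1, h2, h3⟩ := wt_surj ⟨f 0, by omega⟩ ⟨f 1, by omega⟩ ⟨f 2, by omega⟩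
    ⟨f 3, by omega⟩ hs
  refine ⟨a, ?_⟩
  apply Subtype.ext
  apply ofLex.injective
  funext i
  change wt a i = expo v i
  rw [← hf i]
  by_cases hi : 4 ≤ i.val
  · rw [hz _ hi, wt_ge _ hi]
  · have : i.val = 0 ∨ i.val = 1 ∨ i.val = 2 ∨ i.val = 3 := by omega
    rcases this with h | h | h | h <;> rw [h] <;> assumption

/-- the set of monomials given by a bit mask -/
noncomputable def E (hr : 3 ≤ r) (S : ℕ) : Finset (Mon r 4) :=
  (univ.filter (fun a : Fin 35 => S.testBit a = true)).map (emb hr).toEmbedding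

lemma mem_E (hr : 3 ≤ r) (S : ℕ) (a : Fin 35) : emb hr a ∈ E hr S ↔ S.testBit a = true := by
  simp [E]

lemma mem_E' (hr : 3 ≤ r) (S : ℕ) (v : Mon r 4) :
    v ∈ E hr S ↔ ∃ a : Fin 35, S.testBit a = true ∧ emb hr a = v := by
  simp [E]

lemma E_insert (hr : 3 ≤ r) {S : ℕ} {a : Fin 35} (ha : S.testBit a = false) :
    insert (emb hr a) (E hr S) = E hr (S ^^^ 2 ^ (a : ℕ)) := by
  ext v
  rw [Finset.mem_insert, mem_E', mem_E']
  constructor
  · rintro (rfl | ⟨b, hb, rfl⟩)
    · exact ⟨a, by rw [tb_xor]; simp [ha], rfl⟩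
    · refine ⟨b, ?_, rfl⟩
      rw [tb_xor, if_neg]
      · exact hb
      · intro h
        rw [h, ha] at hb
        exact Bool.false_ne_true hb
  · rintro ⟨b, hb, rfl⟩
    by_cases h : (b : ℕ) = a
    · left; rw [Fin.ext h]
    · right
      rw [tb_xor, if_neg h] at hb
      exact ⟨b, hb, rfl⟩

lemma E_erase (hr : 3 ≤ r) {S : ℕ} {a : Fin 35} (ha : S.testBit a = true) :
    (E hr S).erase (emb hr a) = E hr (S ^^^ 2 ^ (a : ℕ)) := by
  ext v
  rw [Finset.mem_erase, mem_E', mem_E']
  constructor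
  · rintro ⟨h1, b, hb, rfl⟩
    refine ⟨b, ?_, rfl⟩
    rw [tb_xor, if_neg]
    · exact hb
    · intro h
      exact h1 (by rw [Fin.ext h])
  · rintro ⟨b, hb, rfl⟩
    have h : ¬ (b : ℕ) = a := by
      intro h
      rw [tb_xor, if_pos h, h, ha] at hb
      simp at hb
    rw [tb_xor, if_neg h] at hb
    refine ⟨?_, b, hb, rfl⟩
    intro h'
    exact h (by rw [(emb hr).injective h'])

lemma E_inj (hr : 3 ≤ r) {S T : ℕ} (hS : S < 2 ^ 35) (hT : T < 2 ^ 35) (h : E hr S = E hr T) :
    S = T := by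
  apply Nat.eq_of_testBit_eq
  intro i
  by_cases hi : i < 35
  · have h1 := mem_E hr S ⟨i, hi⟩
    have h2 := mem_E hr T ⟨i, hi⟩
    rw [h] at h1
    have h3 := h1.symm.trans h2
    simp only at h3
    cases hs : S.testBit i <;> cases ht : T.testBit i <;> simp_all
  · rw [Nat.testBit_lt_two_pow (lt_of_lt_of_le hS (Nat.pow_le_pow_right (by norm_num) (by omega))),
      Nat.testBit_lt_two_pow (lt_of_lt_of_le hT (Nat.pow_le_pow_right (by norm_num) (by omega)))]

lemma card_E (hr : 3 ≤ r) (S : ℕ) : (E hr S).card = pc S 35 := by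
  rw [E, Finset.card_map, Finset.card_filter, pc_eq,
    Fin.sum_univ_eq_sum_range (fun a => if S.testBit a = true then 1 else 0)]

/-- the complementary monomial -/
noncomputable def rem (r S : ℕ) : Fin (r + 1) →₀ ℕ :=
  Finsupp.equivFunOnFinite.symm (fun i => bet i - sw S i 35)

lemma rem_apply (S : ℕ) (i : Fin (r + 1)) : rem r S i = bet i - sw S i 35 := rfl

lemma isCell (hr : 3 ≤ r) {c S : ℕ} (h : valid c S = true) :
    ((E hr S, rem r S) : Finset (Mon r 4) × (Fin (r + 1) →₀ ℕ)).1.card = c ∧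
    (∑ a, ((E hr S, rem r S) : Finset (Mon r 4) × (Fin (r + 1) →₀ ℕ)).2 a) + c * 4 = 15 * 4 := by
  obtain ⟨-, h2, h3⟩ := valid_iff h
  refine ⟨by rw [card_E, h2], ?_⟩
  have h4 := sum4 hr (fun i => bet i - sw S i 35) (fun i hi => by simp [bet_ge hi])
  have h5 : (∑ a : Fin (r + 1), rem r S a) = ∑ i : Fin (r + 1), (bet i - sw S i 35) := rfl
  simp only at h4 ⊢
  rw [h5, h4]
  have h6 := sw_tot S
  have a0 := h3 0
  have a1 := h3 1
  have a2 := h3 2
  have a3 := h3 3
  simp only [bet] at a0 a1 a2 a3 ⊢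
  omega

/-! ### Sums over cells -/

/-- the entries of the matrix -/
noncomputable def mt (x y : Finset (Mon r 4) × (Fin (r + 1) →₀ ℕ)) : ℤ :=
  ∑ v ∈ x.1ᶜ, if insert v x.1 = y.1 ∧ y.2 + expo v = x.2 then sg x.1 v else 0

open Classical in
/-- the indicator of a list of bit masks -/
noncomputable def ind (hr : 3 ≤ r) (L : List ℕ) (x : Finset (Mon r 4) × (Fin (r + 1) →₀ ℕ)) : ℤ :=
  (L.map (fun S => if x = (E hr S, rem r S) then 1 else 0)).sum

lemma sum_ind (hr : 3 ≤ r) (c : ℕ) (f : Finset (Mon r 4) × (Fin (r + 1) →₀ ℕ) → ℤ) :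
    ∀ L : List ℕ, (∀ S ∈ L, valid c S = true) →
      ∑ y : Cell r 4 c 15, f y.1 * ind hr L y.1 =
        (L.map (fun S => f (E hr S, rem r S))).sum := by
  intro L
  induction L with
  | nil => intro _; simp [ind]
  | cons S t ih =>
    intro h
    have h1 := ih (fun T hT => h T (List.mem_cons_of_mem _ hT))
    have h2 : ∀ y : Cell r 4 c 15, f y.1 * ind hr (S :: t) y.1 =
        f y.1 * (if y.1 = (E hr S, rem r S) then 1 else 0) + f y.1 * ind hr t y.1 := by
      intro y
      rw [← mul_add, ind, ind, List.map_cons, List.sum_cons]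
    simp only [h2, Finset.sum_add_distrib, h1, List.map_cons, List.sum_cons]
    congr 1
    obtain ⟨y0, hy0⟩ : ∃ y : Cell r 4 c 15, y.1 = (E hr S, rem r S) :=
      ⟨⟨_, isCell hr (h S List.mem_cons_self)⟩, rfl⟩
    rw [Finset.sum_eq_single y0]
    · rw [hy0]; simp
    · intro y _ hy
      rw [if_neg, mul_zero]
      intro h'
      exact hy (Subtype.ext (h'.trans hy0.symm))
    · intro h'
      exact absurd (Finset.mem_univ _) h'

lemma rem_xor' (hr : 3 ≤ r) {c S : ℕ} (h : valid c S = true) {a : Fin 35}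
    (ha : S.testBit a = true) : rem r S + expo (emb hr a) = rem r (S ^^^ 2 ^ (a : ℕ)) := by
  ext i
  rw [Finsupp.add_apply, rem_apply, rem_apply, emb_apply, expo_em]
  have h1 := sw_xor' a.2 ha i
  have h2 := (valid_iff h).2.2 i
  omega

open Classical in
/-- the entries in terms of the facets of the second set -/
lemma mt_facets (hr : 3 ≤ r) {c S : ℕ} (h : valid c S = true)
    (x : Finset (Mon r 4) × (Fin (r + 1) →₀ ℕ)) :
    mt x (E hr S, rem r S) = ∑ a : Fin 35, if S.testBit a = true ∧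
      x = (E hr (S ^^^ 2 ^ (a : ℕ)), rem r (S ^^^ 2 ^ (a : ℕ))) then sg x.1 (emb hr a) else 0 := by
  have h1 : mt x (E hr S, rem r S) = ∑ v ∈ E hr S,
      if (E hr S).erase v = x.1 ∧ rem r S + expo v = x.2 then sg x.1 v else 0 := by
    rw [mt]
    have e1 : ∀ v, (v ∈ x.1ᶜ ∧ insert v x.1 = E hr S) ↔
        (v ∈ E hr S ∧ (E hr S).erase v = x.1) := by
      intro v
      rw [Finset.mem_compl]
      constructor
      · rintro ⟨h1, h2⟩
        rw [← h2]
        exact ⟨Finset.mem_insert_self _ _, Finset.erase_insert h1⟩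
      · rintro ⟨h1, h2⟩
        rw [← h2]
        exact ⟨Finset.notMem_erase _ _, Finset.insert_erase h1⟩
    rw [← Finset.sum_filter, ← Finset.sum_filter]
    apply Finset.sum_congr _ (fun _ _ => rfl)
    ext v
    simp only [Finset.mem_filter]
    have := e1 v
    tauto
  rw [h1, E, Finset.sum_map, Finset.sum_filter]
  refine Finset.sum_congr rfl fun a _ => ?_
  by_cases ha : S.testBit a = true
  · have h2 : ((emb hr).toEmbedding a) = emb hr a := rfl
    rw [if_pos ha, h2]
    have h3 := E_erase hr ha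
    rw [E] at h3
    rw [h3, rem_xor' hr h ha]
    congr 1
    rw [Prod.ext_iff]
    simp only [ha, true_and]
    apply propext
    constructor
    · rintro ⟨h4, h5⟩; exact ⟨h4.symm, h5.symm⟩
    · rintro ⟨h4, h5⟩; exact ⟨h4.symm, h5.symm⟩
  · simp [ha]

lemma sg_odd (G : Finset (Mon r 4)) (v : Mon r 4) : ∃ c : ℤ, sg G v = 1 + 2 * c := by
  rw [sg]
  rcases neg_one_pow_eq_or ℤ (G.filter (fun u => u < v)).card with h | h
  · exact ⟨0, by rw [h]; simp⟩
  · exact ⟨-1, by rw [h]; norm_num⟩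

open Classical in
/-- indicator of a cell -/
noncomputable def gi (hr : 3 ≤ r) (x : Finset (Mon r 4) × (Fin (r + 1) →₀ ℕ)) (T : ℕ) : ℤ :=
  if x = (E hr T, rem r T) then 1 else 0

lemma facetsOf_sum (g : ℕ → ℤ) (S n : ℕ) : ((facetsOf S n).map g).sum =
    ∑ a ∈ range n, if S.testBit a = true then g (S ^^^ 2 ^ a) else 0 := by
  induction n with
  | zero => rfl
  | succ n ih =>
    rw [Finset.sum_range_succ, facetsOf]
    cases h : S.testBit n
    · simp [ih]
    · simp [ih, add_comm]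

lemma mt_facets_mod (hr : 3 ≤ r) {c S : ℕ} (h : valid c S = true)
    (x : Finset (Mon r 4) × (Fin (r + 1) →₀ ℕ)) :
    ∃ c : ℤ, mt x (E hr S, rem r S) = ((facetsOf S 35).map (gi hr x)).sum + 2 * c := by
  classical
  rw [mt_facets hr h, facetsOf_sum,
    ← Fin.sum_univ_eq_sum_range (fun a => if S.testBit a = true then gi hr x (S ^^^ 2 ^ a) else 0)]
  choose k hk using fun a : Fin 35 => sg_odd x.1 (emb hr a)
  refine ⟨∑ a : Fin 35, if S.testBit a = true ∧
      x = (E hr (S ^^^ 2 ^ (a : ℕ)), rem r (S ^^^ 2 ^ (a : ℕ))) then k a else 0, ?_⟩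
  rw [Finset.mul_sum, ← Finset.sum_add_distrib]
  refine Finset.sum_congr rfl fun a _ => ?_
  rw [hk a]
  by_cases h1 : S.testBit a = true
  · by_cases h2 : x = (E hr (S ^^^ 2 ^ (a : ℕ)), rem r (S ^^^ 2 ^ (a : ℕ)))
    · rw [if_pos ⟨h1, h2⟩, if_pos h1, if_pos ⟨h1, h2⟩, gi, if_pos h2]
    · rw [if_neg (fun h => h2 h.2), if_pos h1, if_neg (fun h => h2 h.2), gi, if_neg h2]
      norm_num
  · rw [if_neg (fun h => h1 h.1), if_neg h1, if_neg (fun h => h1 h.1)]
    norm_num

lemma cycle_mod (hr : 3 ≤ r) (x : Finset (Mon r 4) × (Fin (r + 1) →₀ ℕ)) :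
    ∀ L : List ℕ, (∀ S ∈ L, valid 14 S = true) →
    ∃ c : ℤ, (L.map (fun S => mt x (E hr S, rem r S))).sum =
      ((facets L).map (gi hr x)).sum + 2 * c := by
  intro L
  induction L with
  | nil => intro _; exact ⟨0, by simp [facets]⟩
  | cons S t ih =>
    intro h
    obtain ⟨c1, h1⟩ := ih (fun T hT => h T (List.mem_cons_of_mem _ hT))
    obtain ⟨c2, h2⟩ := mt_facets_mod hr (h S List.mem_cons_self) x
    refine ⟨c1 + c2, ?_⟩
    rw [List.map_cons, List.sum_cons, h1, h2, facets, List.map_append, List.sum_append]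
    ring

/-! ### Cofacets -/

lemma cofacetsOf_sum (g : ℕ → ℤ) (S s0 s1 s2 s3 n : ℕ) :
    ((cofacetsOf S s0 s1 s2 s3 n).map g).sum =
    ∑ a ∈ range n, if S.testBit a = false ∧ fits s0 s1 s2 s3 a = true
      then g (S ^^^ 2 ^ a) else 0 := by
  induction n with
  | zero => rfl
  | succ n ih =>
    rw [Finset.sum_range_succ, cofacetsOf]
    cases h : S.testBit n <;> cases h' : fits s0 s1 s2 s3 n <;> simp [ih, add_comm]

lemma fits_iff (S : ℕ) (a : ℕ) :
    fits (sw S 0 35) (sw S 1 35) (sw S 2 35) (sw S 3 35) a = true ↔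
      ∀ i, sw S i 35 + wt a i ≤ bet i := by
  simp only [fits, Bool.and_eq_true, Nat.ble_eq]
  constructor
  · rintro ⟨⟨⟨h0, h1⟩, h2⟩, h3⟩ i
    match i with
    | 0 => exact h0
    | 1 => exact h1
    | 2 => exact h2
    | 3 => exact h3
    | i + 4 => rw [sw_ge S (by omega), wt_ge a (by omega)]; exact Nat.zero_le _
  · intro h
    exact ⟨⟨⟨h 0, h 1⟩, h 2⟩, h 3⟩

open Classical in
lemma mt_cofacets (hr : 3 ≤ r) {c S : ℕ} (h : valid c S = true)
    (y : Finset (Mon r 4) × (Fin (r + 1) →₀ ℕ)) :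
    mt (E hr S, rem r S) y = ∑ a : Fin 35, if (S.testBit a = false ∧
      fits (sw S 0 35) (sw S 1 35) (sw S 2 35) (sw S 3 35) a = true) ∧
      y = (E hr (S ^^^ 2 ^ (a : ℕ)), rem r (S ^^^ 2 ^ (a : ℕ)))
      then sg (E hr S) (emb hr a) else 0 := by
  obtain ⟨-, -, hle⟩ := valid_iff h
  rw [mt]
  simp only
  -- only the monomials in the image of the embedding contribute
  have h1 : ∑ v ∈ (E hr S)ᶜ, (if insert v (E hr S) = y.1 ∧ y.2 + expo v = rem r S
      then sg (E hr S) v else 0) =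
      ∑ v ∈ (univ.filter (fun a : Fin 35 => S.testBit a = false)).map (emb hr).toEmbedding,
      (if insert v (E hr S) = y.1 ∧ y.2 + expo v = rem r S then sg (E hr S) v else 0) := by
    symm
    apply Finset.sum_subset
    · intro v hv
      simp only [Finset.mem_map, Finset.mem_filter, Finset.mem_univ, true_and] at hv
      obtain ⟨a, ha, rfl⟩ := hv
      rw [Finset.mem_compl]
      intro hcon
      have := (mem_E hr S a).1 hcon
      rw [ha] at this
      exact Bool.false_ne_true this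
    · intro v hv hv'
      rw [if_neg]
      rintro ⟨-, h2⟩
      have h3 : ∀ i : Fin (r + 1), 4 ≤ i.val → expo v i = 0 := by
        intro i hi
        have := DFunLike.congr_fun h2 i
        rw [Finsupp.add_apply, rem_apply, bet_ge hi] at this
        omega
      obtain ⟨a, rfl⟩ := exists_em hr v h3
      apply hv'
      simp only [Finset.mem_map, Finset.mem_filter, Finset.mem_univ, true_and]
      refine ⟨a, ?_, rfl⟩
      rw [Finset.mem_compl, mem_E] at hv
      simpa using hv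
  rw [h1, Finset.sum_map, Finset.sum_filter]
  refine Finset.sum_congr rfl fun a _ => ?_
  by_cases ha : S.testBit a = false
  · have h2 : ((emb hr).toEmbedding a) = emb hr a := rfl
    rw [if_pos ha, h2, E_insert hr ha]
    congr 1
    rw [fits_iff, Prod.ext_iff]
    simp only [ha, true_and]
    apply propext
    constructor
    · rintro ⟨h4, h5⟩
      have h6 : ∀ i : Fin (r + 1), y.2 i + wt a i = bet i - sw S i 35 := by
        intro i
        have := DFunLike.congr_fun h5 i
        rwa [Finsupp.add_apply, rem_apply, emb_apply, expo_em] at this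
      refine ⟨?_, h4.symm, ?_⟩
      · intro i
        by_cases hi : i < r + 1
        · have := h6 ⟨i, hi⟩
          have := hle i
          simp only at *
          omega
        · rw [sw_ge S (by omega), wt_ge a (by omega)]
          exact Nat.zero_le _
      · ext i
        rw [rem_apply, sw_xor a.2 ha]
        have := h6 i
        omega
    · rintro ⟨h4, h5, h6⟩
      refine ⟨h5.symm, ?_⟩
      rw [h6]
      ext i
      rw [Finsupp.add_apply, rem_apply, rem_apply, emb_apply, expo_em, sw_xor a.2 ha]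
      have := h4 i
      omega
  · simp [ha]

lemma mt_cofacets_mod (hr : 3 ≤ r) {c S : ℕ} (h : valid c S = true)
    (y : Finset (Mon r 4) × (Fin (r + 1) →₀ ℕ)) :
    ∃ c : ℤ, mt (E hr S, rem r S) y = ((cofacetsOf S (sw S 0 35) (sw S 1 35) (sw S 2 35)
      (sw S 3 35) 35).map (gi hr y)).sum + 2 * c := by
  classical
  rw [mt_cofacets hr h, cofacetsOf_sum,
    ← Fin.sum_univ_eq_sum_range (fun a => if S.testBit a = false ∧
      fits (sw S 0 35) (sw S 1 35) (sw S 2 35) (sw S 3 35) a = true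
      then gi hr y (S ^^^ 2 ^ a) else 0)]
  choose k hk using fun a : Fin 35 => sg_odd (E hr S) (emb hr a)
  refine ⟨∑ a : Fin 35, if (S.testBit a = false ∧
      fits (sw S 0 35) (sw S 1 35) (sw S 2 35) (sw S 3 35) a = true) ∧
      y = (E hr (S ^^^ 2 ^ (a : ℕ)), rem r (S ^^^ 2 ^ (a : ℕ))) then k a else 0, ?_⟩
  rw [Finset.mul_sum, ← Finset.sum_add_distrib]
  refine Finset.sum_congr rfl fun a _ => ?_
  rw [hk a]
  by_cases h1 : S.testBit a = false ∧
      fits (sw S 0 35) (sw S 1 35) (sw S 2 35) (sw S 3 35) a = true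
  · by_cases h2 : y = (E hr (S ^^^ 2 ^ (a : ℕ)), rem r (S ^^^ 2 ^ (a : ℕ)))
    · rw [if_pos ⟨h1, h2⟩, if_pos h1, if_pos ⟨h1, h2⟩, gi, if_pos h2]
    · rw [if_neg (fun h => h2 h.2), if_pos h1, if_neg (fun h => h2 h.2), gi, if_neg h2]
      norm_num
  · rw [if_neg (fun h => h1 h.1), if_neg h1, if_neg (fun h => h1 h.1)]
    norm_num

lemma cocycle_mod (hr : 3 ≤ r) (y : Finset (Mon r 4) × (Fin (r + 1) →₀ ℕ)) :
    ∀ L : List ℕ, (∀ S ∈ L, valid 13 S = true) →
    ∃ c : ℤ, (L.map (fun S => mt (E hr S, rem r S) y)).sum =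
      ((cofacets L).map (gi hr y)).sum + 2 * c := by
  intro L
  induction L with
  | nil => intro _; exact ⟨0, by simp [cofacets]⟩
  | cons S t ih =>
    intro h
    obtain ⟨c1, h1⟩ := ih (fun T hT => h T (List.mem_cons_of_mem _ hT))
    obtain ⟨c2, h2⟩ := mt_cofacets_mod hr (h S List.mem_cons_self) y
    refine ⟨c1 + c2, ?_⟩
    rw [List.map_cons, List.sum_cons, h1, h2, cofacets, List.map_append, List.sum_append]
    ring

/-! ### The pairing -/

lemma sg_eq (hr : 3 ≤ r) (S : ℕ) (a : Fin 35) : sg (E hr S) (emb hr a) = sgn S a := by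
  have h1 : ((E hr S).filter (fun u => u < emb hr a)).card = pc S a := by
    rw [E, Finset.filter_map, Finset.card_map, Finset.filter_filter, Finset.card_filter, pc_eq]
    have h2 : ∀ b : Fin 35, (if S.testBit b = true ∧
        ((fun u => u < emb hr a) ∘ (emb hr).toEmbedding) b then 1 else 0) =
        (fun b : ℕ => if S.testBit b = true ∧ b < a then 1 else 0) b := by
      intro b
      have : ((fun u => u < emb hr a) ∘ (emb hr).toEmbedding) b ↔ (b : ℕ) < a := by
        change emb hr b < emb hr a ↔ _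
        rw [(emb hr).lt_iff_lt]
        rfl
      simp [this]
    rw [Finset.sum_congr rfl (fun b _ => h2 b),
      Fin.sum_univ_eq_sum_range (fun b : ℕ => if S.testBit b = true ∧ b < a then 1 else 0)]
    rw [← Finset.sum_filter, ← Finset.sum_filter]
    apply Finset.sum_congr _ (fun _ _ => rfl)
    ext b
    simp only [Finset.mem_filter, Finset.mem_range]
    have := a.2
    constructor
    · rintro ⟨h1, h2, h3⟩; exact ⟨h3, h2⟩
    · rintro ⟨h1, h2⟩; exact ⟨by omega, h2, h1⟩
  rw [sg, h1, sgn]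
  cases h : Nat.beq (pc S a % 2) 0 with
  | true =>
    have := Nat.eq_of_beq_eq_true h
    simp only
    exact Even.neg_one_pow (Nat.even_iff.2 this)
  | false =>
    have : ¬ (pc S a % 2 = 0) := by
      intro h'
      rw [h'] at h
      simp at h
    simp only
    exact Odd.neg_one_pow (Nat.odd_iff.2 (by omega))

lemma mt_eq_mm (hr : 3 ≤ r) {c c' S S' : ℕ} (hS : valid c S = true) (hS' : valid c' S' = true) :
    mt (E hr S, rem r S) (E hr S', rem r S') = mm S S' := by
  classical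
  obtain ⟨l1, -, -⟩ := valid_iff hS
  obtain ⟨l2, -, -⟩ := valid_iff hS'
  rw [mt_facets hr hS']
  have hlt : ∀ a : Fin 35, S' ^^^ 2 ^ (a : ℕ) < 2 ^ 35 := by
    intro a
    exact Nat.xor_lt_two_pow l2 (Nat.pow_lt_pow_right (by norm_num) a.2)
  have h1 : ∀ a : Fin 35, ((S'.testBit a = true ∧ ((E hr S, rem r S) :
      Finset (Mon r 4) × (Fin (r + 1) →₀ ℕ)) =
      (E hr (S' ^^^ 2 ^ (a : ℕ)), rem r (S' ^^^ 2 ^ (a : ℕ))))) ↔
      (S.testBit a = false ∧ S ^^^ S' = 2 ^ (a : ℕ)) := by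
    intro a
    constructor
    · rintro ⟨h1, h2⟩
      have h3 : S = S' ^^^ 2 ^ (a : ℕ) := E_inj hr l1 (hlt a) (congrArg Prod.fst h2)
      refine ⟨?_, ?_⟩
      · rw [h3, tb_xor]; simp [h1]
      · rw [h3, Nat.xor_comm S', Nat.xor_assoc, Nat.xor_self, Nat.xor_zero]
    · rintro ⟨h1, h2⟩
      have h3 : S' = S ^^^ 2 ^ (a : ℕ) := by
        rw [← h2, ← Nat.xor_assoc, Nat.xor_self, Nat.zero_xor]
      have h4 : S = S' ^^^ 2 ^ (a : ℕ) := by
        rw [h3, Nat.xor_assoc, Nat.xor_self, Nat.xor_zero]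
      refine ⟨by rw [h3, tb_xor]; simp [h1], by rw [← h4]⟩
  simp only [h1, sg_eq]
  by_cases hx : 2 ^ (S ^^^ S').log2 = S ^^^ S'
  · have hlog : (S ^^^ S').log2 < 35 := by
      by_contra hcon
      have h2 : 2 ^ 35 ≤ S ^^^ S' := by
        rw [← hx]
        exact Nat.pow_le_pow_right (by norm_num) (by omega)
      have := Nat.xor_lt_two_pow l1 l2
      omega
    rw [Finset.sum_eq_single (⟨(S ^^^ S').log2, hlog⟩ : Fin 35)]
    · have hb : Nat.beq (2 ^ (S ^^^ S').log2) (S ^^^ S') = true := by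
        rw [hx]; simp
      rw [mm, hb]
      simp only
      cases hs : S.testBit (S ^^^ S').log2 with
      | true => simp
      | false => simp [hx]
    · intro b _ hb
      rw [if_neg]
      rintro ⟨-, h3⟩
      apply hb
      apply Fin.ext
      simp only
      rw [← hx] at h3
      exact (Nat.pow_right_injective (le_refl 2) h3).symm
    · intro h; exact absurd (Finset.mem_univ _) h
  · have hb : Nat.beq (2 ^ (S ^^^ S').log2) (S ^^^ S') = false := by
      cases hb : Nat.beq (2 ^ (S ^^^ S').log2) (S ^^^ S') with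
      | true => exact absurd (Nat.eq_of_beq_eq_true hb) hx
      | false => rfl
    rw [mm, hb]
    simp only
    apply Finset.sum_eq_zero
    intro a _
    rw [if_neg]
    rintro ⟨-, h3⟩
    apply hx
    rw [h3, Nat.log2_two_pow]

lemma rowSum_eq (S : ℕ) (L : List ℕ) : rowSum S L = (L.map (mm S)).sum := by
  induction L with
  | nil => rfl
  | cons a t ih => rw [rowSum, ih, List.map_cons, List.sum_cons]

lemma totSum_eq (L' L : List ℕ) : totSum L' L = (L.map (fun S => rowSum S L')).sum := by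
  induction L with
  | nil => rfl
  | cons a t ih => rw [totSum, ih, List.map_cons, List.sum_cons]

/-- the Betti number grows in characteristic two -/
theorem betti_two (hr : 3 ≤ r) : betti ℚ r 4 14 15 < betti (ZMod 2) r 4 14 15 := by
  have vW : ∀ S ∈ W, valid 14 S = true := List.all_eq_true.1 validW
  have vP : ∀ S ∈ Ph, valid 13 S = true := List.all_eq_true.1 validPh
  have hmat : ∀ (x : Cell r 4 13 15) (y : Cell r 4 14 15), Mat r 4 13 15 x y = mt x.1 y.1 :=
    fun _ _ => rfl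
  have hw : ∀ x : Cell r 4 13 15, (Mat r 4 13 15).mulVec (fun y => ind hr W y.1) x =
      (W.map (fun S => mt x.1 (E hr S, rem r S))).sum := by
    intro x
    rw [← sum_ind hr 14 (fun y => mt x.1 y) W vW]
    rfl
  refine betti_lt r 4 13 15 (fun y => ind hr W y.1) (fun x => ind hr Ph x.1) ?_ ?_ ?_
  · intro x
    rw [hw]
    obtain ⟨c, hc⟩ := cycle_mod hr x.1 W vW
    rw [hc]
    exact dvd_add (allEven_sum check1 _) ⟨c, rfl⟩
  · intro y
    have h1 : Matrix.vecMul (fun x : Cell r 4 13 15 => ind hr Ph x.1) (Mat r 4 13 15) y =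
        (Ph.map (fun S => mt (E hr S, rem r S) y.1)).sum := by
      rw [← sum_ind hr 13 (fun x => mt x y.1) Ph vP]
      simp only [Matrix.vecMul, dotProduct, hmat]
      refine Finset.sum_congr rfl fun x _ => mul_comm _ _
    rw [h1]
    obtain ⟨c, hc⟩ := cocycle_mod hr y.1 Ph vP
    rw [hc]
    exact dvd_add (allEven_sum check2 _) ⟨c, rfl⟩
  · have h1 : (fun x : Cell r 4 13 15 => ind hr Ph x.1) ⬝ᵥ
        (Mat r 4 13 15).mulVec (fun y => ind hr W y.1) = 6 := by
      have h2 : (fun x : Cell r 4 13 15 => ind hr Ph x.1) ⬝ᵥ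
        (Mat r 4 13 15).mulVec (fun y => ind hr W y.1) = ∑ x : Cell r 4 13 15,
          (W.map (fun S => mt x.1 (E hr S, rem r S))).sum * ind hr Ph x.1 := by
        simp only [dotProduct]
        refine Finset.sum_congr rfl fun x _ => ?_
        rw [hw, mul_comm]
      rw [h2, sum_ind hr 13 (fun x => (W.map (fun S => mt x (E hr S, rem r S))).sum) Ph vP,
        ← check3, totSum_eq]
      refine congrArg List.sum (List.map_congr_left fun S hS => ?_)
      rw [rowSum_eq]
      refine congrArg List.sum (List.map_congr_left fun S' hS' => ?_)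
      exact mt_eq_mm hr (vP S hS) (vW S' hS')
    rw [h1]
    norm_num

end

end Pool.Agent.T2H42.Ver
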